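import Pool.Agent.Y17.N.Defs
import Pool.Agent.Z700.BIL2B

/-!
# Z17N-C7: evaluation of `cp + cp7`
-/

set_option autoImplicit false

namespace Pool.Agent.Y574.N

/-- C7 -/
theorem t_C7 (h : Pool.Agent.Z700.S_PC) : Pool.Agent.Y17.N.S_C7 := by
  intro n1 n2 hs h1 h2 β1 β2 hβ1 _ e1 e2 b hb hb7 hlt
  have hpos : 0 < ((n1 : ℤ) * n2 - b ^ 2).toNat := by
    rw [Int.lt_toNat]
    push_cast
    linarith
  have hDD : ((((n1 : ℤ) * n2 - b ^ 2).toNat : ℕ) : ℤ) = n1 * n2 - b ^ 2 :=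
    Int.toNat_of_nonneg (by linarith)
  exact Pool.Agent.Z700.BIL2B.main_pos h n1 n2 _ b β1 β2 hs h1 h2 hb hpos hDD e1 e2 hβ1 hb7

end Pool.Agent.Y574.N
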